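import Pool.Agent.Q155.CW.AP

/-!
# Corner-free sets and polynomials of low degree

The input is a quantitative form of the Chevalley-Warning theorem: every point of `(F_2^n)^2` is the
vertex of many corners on which `r` given functions of small degrees in `x` and in `y` are constant.
-/

set_option autoImplicit false

open MvPolynomial Finset

namespace Pool.Agent.Results.MP_db4732_co.LowDegreeSets

/-- The vector space `F_2^n`. -/
abbrev V (n : ℕ) : Type := Fin n → ZMod 2

/-- `A` contains no nontrivial corner `(x, y), (x, y + z), (x + z, y)`, `z ≠ 0`. -/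
def CornerFree {n : ℕ} (A : Finset (V n × V n)) : Prop :=
  ∀ x y z : V n, (x, y) ∈ A → (x, y + z) ∈ A → (x + z, y) ∈ A → z = 0

/-- The function `g` on `F_2^n` is given by a polynomial of total degree at most `d`. -/
def DegLE {n : ℕ} (d : ℕ) (g : V n → ZMod 2) : Prop :=
  ∃ P : MvPolynomial (Fin n) (ZMod 2), P.totalDegree ≤ d ∧ ∀ x, g x = eval x P

/-- For every `i` the function `f_i(x, y)` has degree at most `a_i` in `x` for every fixed `y`, and
degree at most `b_i` in `y` for every fixed `x`. -/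
def Degrees {n r : ℕ} (a b : Fin r → ℕ) (f : Fin r → V n → V n → ZMod 2) : Prop :=
  ∀ i, (∀ y, DegLE (a i) fun x => f i x y) ∧ ∀ x, DegLE (b i) (f i x)

/-- Membership of `(x, y)` in `A` depends only on the values `f_i(x, y)`. -/
def DefinedBy {n r : ℕ} (f : Fin r → V n → V n → ZMod 2) (A : Finset (V n × V n)) : Prop :=
  ∀ x y x' y', (∀ i, f i x y = f i x' y') → (x, y) ∈ A → (x', y') ∈ A

/-- The set of the `z` such that `f_1, …, f_r` are constant on the corner
`(x, y), (x + z, y), (x, y + z)`. -/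
def corners {n r : ℕ} (f : Fin r → V n → V n → ZMod 2) (x y : V n) : Finset (V n) :=
  univ.filter fun z => ∀ i, f i (x + z) y = f i x y ∧ f i x (y + z) = f i x y

theorem one_fin {n r : ℕ} {a b : Fin r → ℕ} {f : Fin r → V n → V n → ZMod 2}
    (hf : Degrees a b f) (x y : V n) :
    2 ^ n ≤ (2 ^ (∑ i, (a i + b i) + 1) - 1) * (corners f x y).card := by
  choose P hPd hP using fun i => (hf i).1 y
  choose Q hQd hQ using fun i => (hf i).2 x
  have hsh : ∀ (c : V n) (g : MvPolynomial (Fin n) (ZMod 2)) (z : V n),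
      eval z (bind₁ (fun s => C (c s) + C (1 : ZMod 2) * X s) g) = eval (c + z) g := by
    intro c g z
    rw [Q155.CW.eval_bind]
    congr 2
    funext s
    simp
  have hsd : ∀ (c : V n) (g : MvPolynomial (Fin n) (ZMod 2)),
      (bind₁ (fun s => C (c s) + C (1 : ZMod 2) * X s) g - C (eval c g)).totalDegree ≤
        g.totalDegree := by
    intro c g
    refine (totalDegree_sub _ _).trans (max_le ?_ ?_)
    · exact Q155.CW.totalDegree_bind _ (fun s => Q155.CW.shift_deg c _ s) g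
    · rw [totalDegree_C]; exact Nat.zero_le _
  let h : Fin r ⊕ Fin r → MvPolynomial (Fin n) (ZMod 2) := Sum.elim
    (fun i => bind₁ (fun s => C (x s) + C (1 : ZMod 2) * X s) (P i) - C (eval x (P i)))
    (fun i => bind₁ (fun s => C (y s) + C (1 : ZMod 2) * X s) (Q i) - C (eval y (Q i)))
  have h0 : ∀ l, eval 0 (h l) = 0 := by
    rintro (i | i) <;>
    · simp only [h, Sum.elim_inl, Sum.elim_inr]
      rw [map_sub, hsh, eval_C, add_zero, sub_self]
  have hD : ∑ l, (h l).totalDegree ≤ ∑ i, (a i + b i) := by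
    rw [Fintype.sum_sum_type, sum_add_distrib]
    exact Nat.add_le_add (sum_le_sum fun i _ => (hsd x (P i)).trans (hPd i))
      (sum_le_sum fun i _ => (hsd y (Q i)).trans (hQd i))
  have key := Q155.CW.zeros_ge h h0 _ hD
  have h1 : (2 - 1) * 2 ^ n = 2 ^ n := by norm_num
  rw [h1] at key
  refine key.trans (Nat.mul_le_mul_left _ (card_le_card ?_))
  intro z hz
  rw [mem_filter] at hz
  rw [corners, mem_filter]
  refine ⟨mem_univ _, fun i => ⟨?_, ?_⟩⟩
  · have := hz.2 (Sum.inl i)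
    simp only [h, Sum.elim_inl] at this
    rw [map_sub, hsh, eval_C, sub_eq_zero, ← hP, ← hP] at this
    exact this
  · have := hz.2 (Sum.inr i)
    simp only [h, Sum.elim_inr] at this
    rw [map_sub, hsh, eval_C, sub_eq_zero, ← hQ, ← hQ] at this
    exact this

theorem two_fin {n r : ℕ} {a b : Fin r → ℕ} {f : Fin r → V n → V n → ZMod 2}
    (hf : Degrees a b f) (hn : ∑ i, (a i + b i) + 2 ≤ n) (F A : Finset (V n × V n))
    (hF : DefinedBy f F) (hA : CornerFree A) :
    F.card ≤ 3 * 2 ^ (∑ i, (a i + b i) + 2) * (F \ A).card := by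
  let act : Fin 3 → V n × V n → V n → V n × V n :=
    fun j q z => (q.1 + (if j = 1 then z else 0), q.2 + (if j = 2 then z else 0))
  have h := Q155.CW.count (X := V n × V n) (Y := V n) 3 act
    (fun j z => by
      intro q q' hq
      simp only [act, Prod.mk.injEq] at hq
      exact Prod.ext (add_right_cancel hq.1) (add_right_cancel hq.2)) F A
    (fun q => corners f q.1 q.2) (by
      rintro ⟨x, y⟩ hx z hz j
      rw [corners, mem_filter] at hz
      fin_cases j
      · simpa [act] using hx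
      · have := hF x y (x + z) y (fun i => ((hz.2 i).1).symm) hx
        simpa [act] using this
      · have := hF x y x (y + z) (fun i => ((hz.2 i).2).symm) hx
        simpa [act] using this)
    (by
      rintro ⟨x, y⟩ z h
      refine hA x y z ?_ ?_ ?_
      · simpa [act] using h 0
      · simpa [act] using h 2
      · simpa [act] using h 1) (2 ^ n)
    (2 ^ (∑ i, (a i + b i) + 1) - 1) (fun q _ => one_fin hf q.1 q.2)
  have hcard : Fintype.card (V n) = 2 ^ n := by
    rw [Fintype.card_fun, ZMod.card, Fintype.card_fin]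
  rw [hcard] at h
  set D := ∑ i, (a i + b i) with hDD
  have hle : 2 * 2 ^ (D + 1) ≤ 2 ^ n := by
    calc 2 * 2 ^ (D + 1) = 2 ^ (D + 2) := by ring
      _ ≤ _ := Nat.pow_le_pow_right (by norm_num) hn
  have hpos : 0 < 2 ^ n := Nat.pow_pos (by norm_num)
  set s := F.card with hs
  set b' := (F \ A).card with hb
  have h1 : (2 ^ (D + 1) - 1) * (3 * ((2 ^ n - 1) * b')) ≤ 2 ^ (D + 1) * (3 * (2 ^ n * b')) :=
    Nat.mul_le_mul (Nat.sub_le _ _) (Nat.mul_le_mul_left _ (Nat.mul_le_mul_right _ (Nat.sub_le _ _)))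
  have h2 : 2 * ((2 ^ (D + 1) - 1) * s) ≤ 2 ^ n * s := by
    calc 2 * ((2 ^ (D + 1) - 1) * s) ≤ 2 * (2 ^ (D + 1) * s) :=
        Nat.mul_le_mul_left _ (Nat.mul_le_mul_right _ (Nat.sub_le _ _))
      _ = 2 * 2 ^ (D + 1) * s := by ring
      _ ≤ _ := Nat.mul_le_mul_right _ hle
  have h3 : 2 ^ n * s ≤ 2 * (2 ^ (D + 1) * (3 * (2 ^ n * b'))) := by
    omega
  have h6 : 2 ^ n * s ≤ 2 ^ n * (3 * 2 ^ (D + 2) * b') := by
    calc 2 ^ n * s ≤ 2 * (2 ^ (D + 1) * (3 * (2 ^ n * b'))) := h3
      _ = _ := by ring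
  exact Nat.le_of_mul_le_mul_left h6 hpos

theorem three_fin {n r : ℕ} {a b : Fin r → ℕ} {f : Fin r → V n → V n → ZMod 2}
    (hf : Degrees a b f) (A : Finset (V n × V n)) (hne : A.Nonempty) (hF : DefinedBy f A)
    (hA : CornerFree A) : n ≤ ∑ i, (a i + b i) := by
  by_contra hcon
  push Not at hcon
  obtain ⟨⟨x, y⟩, hx⟩ := hne
  have h1 := one_fin hf x y
  have h2 : corners f x y ⊆ {0} := by
    intro z hz
    rw [mem_singleton]
    rw [corners, mem_filter] at hz
    exact hA x y z hx (hF x y x (y + z) (fun i => ((hz.2 i).2).symm) hx)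
      (hF x y (x + z) y (fun i => ((hz.2 i).1).symm) hx)
  have h3 : (corners f x y).card ≤ 1 := (card_le_card h2).trans (card_singleton _).le
  have hle : 2 ^ (∑ i, (a i + b i) + 1) ≤ 2 ^ n := Nat.pow_le_pow_right (by norm_num) hcon
  have hpos : 0 < 2 ^ (∑ i, (a i + b i) + 1) := Nat.pow_pos (by norm_num)
  have h5 : (2 ^ (∑ i, (a i + b i) + 1) - 1) * (corners f x y).card ≤
      2 ^ (∑ i, (a i + b i) + 1) - 1 := by
    calc _ ≤ (2 ^ (∑ i, (a i + b i) + 1) - 1) * 1 := Nat.mul_le_mul_left _ h3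
      _ = _ := mul_one _
  omega

/-- a product of linear factors as a polynomial -/
theorem deg_prod {n m : ℕ} (c : ZMod 2) (g : Fin m → Fin n) :
    DegLE m fun x : V n => c * ∏ s, (1 + x (g s)) := by
  refine ⟨C c * ∏ s, (C 1 + X (g s)), ?_, fun x => ?_⟩
  · refine (totalDegree_mul _ _).trans ?_
    rw [totalDegree_C, zero_add]
    refine (totalDegree_finsetProd _ _).trans ?_
    have : ∀ s : Fin m, (C 1 + X (g s) : MvPolynomial (Fin n) (ZMod 2)).totalDegree ≤ 1 := by
      intro s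
      refine (totalDegree_add _ _).trans (max_le ?_ ?_)
      · rw [totalDegree_C]; exact Nat.zero_le _
      · exact (totalDegree_X (R := ZMod 2) _).le
    refine (sum_le_sum fun s _ => this s).trans ?_
    simp
  · simp [map_prod]

theorem four_mem {r : ℕ} (a b : Fin r → ℕ) :
    ∃ f : Fin r → V (∑ i, (a i + b i)) → V (∑ i, (a i + b i)) → ZMod 2, Degrees a b f ∧
      ∃ A : Finset (V (∑ i, (a i + b i)) × V (∑ i, (a i + b i))),
        A.Nonempty ∧ DefinedBy f A ∧ CornerFree A := by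
  obtain ⟨e⟩ : Nonempty ((Σ i : Fin r, Fin (a i) ⊕ Fin (b i)) ≃ Fin (∑ i, (a i + b i))) := by
    refine ⟨Fintype.equivFinOfCardEq ?_⟩
    rw [Fintype.card_sigma]
    simp
  have hone : ∀ t : ZMod 2, t ≠ 0 → t = 1 := by decide
  have hzero : ∀ t : ZMod 2, 1 + t ≠ 0 → t = 0 := by decide
  let f : Fin r → V (∑ i, (a i + b i)) → V (∑ i, (a i + b i)) → ZMod 2 := fun i x y =>
    (∏ s, (1 + x (e ⟨i, Sum.inl s⟩))) * ∏ t, (1 + y (e ⟨i, Sum.inr t⟩))
  have hx0 : ∀ i x y, f i x y = 1 → ∀ s, x (e ⟨i, Sum.inl s⟩) = 0 := by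
    intro i x y h s
    refine hzero _ fun h0 => ?_
    have : ∏ s, (1 + x (e ⟨i, Sum.inl s⟩)) = 0 := prod_eq_zero (mem_univ s) h0
    simp only [f, this, zero_mul] at h
    exact zero_ne_one h
  have hy0 : ∀ i x y, f i x y = 1 → ∀ t, y (e ⟨i, Sum.inr t⟩) = 0 := by
    intro i x y h t
    refine hzero _ fun h0 => ?_
    have : ∏ t, (1 + y (e ⟨i, Sum.inr t⟩)) = 0 := prod_eq_zero (mem_univ t) h0
    simp only [f, this, mul_zero] at h
    exact zero_ne_one h
  refine ⟨f, fun i => ⟨fun y => ?_, fun x => ?_⟩,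
    univ.filter fun q => ∀ i, f i q.1 q.2 = 1, ⟨0, ?_⟩, ?_, ?_⟩
  · have h := deg_prod (∏ t, (1 + y (e ⟨i, Sum.inr t⟩))) fun s : Fin (a i) => e ⟨i, Sum.inl s⟩
    obtain ⟨P, hP1, hP2⟩ := h
    exact ⟨P, hP1, fun x => (mul_comm _ _).trans (hP2 x)⟩
  · exact deg_prod _ _
  · rw [mem_filter]
    exact ⟨mem_univ _, fun i => by simp [f]⟩
  · intro x y x' y' hxy hq
    rw [mem_filter] at hq ⊢
    exact ⟨mem_univ _, fun i => (hxy i).symm.trans (hq.2 i)⟩
  · intro x y z h1 h2 h3
    rw [mem_filter] at h1 h2 h3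
    funext q
    obtain ⟨⟨i, s | t⟩, rfl⟩ := e.surjective q
    · have e1 := hx0 i x y (h1.2 i) s
      have e2 := hx0 i (x + z) y (h3.2 i) s
      rw [Pi.add_apply, e1, zero_add] at e2
      exact e2
    · have e1 := hy0 i x y (h1.2 i) t
      have e2 := hy0 i x (y + z) (h2.2 i) t
      rw [Pi.add_apply, e1, zero_add] at e2
      exact e2

/-- **Corner-free sets and polynomials of low degree.** -/
theorem result (r : ℕ) (a b : Fin r → ℕ) :
    (∀ (n : ℕ) (f : Fin r → V n → V n → ZMod 2), Degrees a b f →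
      (∀ x y, 2 ^ n ≤ (2 ^ (∑ i, (a i + b i) + 1) - 1) * (corners f x y).card) ∧
      (∑ i, (a i + b i) + 2 ≤ n → ∀ F A : Finset (V n × V n), DefinedBy f F → CornerFree A →
        F.card ≤ 3 * 2 ^ (∑ i, (a i + b i) + 2) * (F \ A).card)) ∧
    IsGreatest {n : ℕ | ∃ f : Fin r → V n → V n → ZMod 2, Degrees a b f ∧
      ∃ A : Finset (V n × V n), A.Nonempty ∧ DefinedBy f A ∧ CornerFree A}
      (∑ i, (a i + b i)) := by
  refine ⟨fun n f hf => ⟨one_fin hf, fun hn F A hF hA => two_fin hf hn F A hF hA⟩,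
    four_mem a b, ?_⟩
  rintro n ⟨f, hf, A, hne, hF, hA⟩
  exact three_fin hf A hne hF hA

end Pool.Agent.Results.MP_db4732_co.LowDegreeSets
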