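import Pool.Agent.Q247.CN.Hash
import Pool.Agent.H523R2.Corner.Data4

set_option autoImplicit false

/-!
# The growth rate of corner-free sets in `(F_2^n)^2` is not attained in any finite dimension

Let `r n` be the largest size of a corner-free subset of `(F_2^n)^2`. Products of corner-free sets
are corner-free, so that `r m * r n ≤ r (m + n)` and `L = lim (r n)^{1/n} = sup (r n)^{1/n}` exists;
the power-saving bound of the problem says that `L < 4`. We show that no corner-free set, of no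
dimension, has the optimal exponent: `r n (1 + 2^{-44 n - 1}) ≤ L^n` for all `n ≥ 1`.
-/

namespace Pool.Agent.Results.MP_db4732_co.NotAttained

open Pool.Agent.Q247.CN Filter Topology Finset

/-- `A ⊆ (F_2^n)^2` contains no nontrivial corner `(x, y), (x, y + z), (x + z, y)`, `z ≠ 0`. -/
def CornerFree (n : ℕ) (A : Finset ((Fin n → ZMod 2) × (Fin n → ZMod 2))) : Prop :=
  ∀ x y z : Fin n → ZMod 2, (x, y) ∈ A → (x, y + z) ∈ A → (x + z, y) ∈ A → z = 0

/-- The largest size of a corner-free subset of `(F_2^n)^2`. -/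
noncomputable def r (n : ℕ) : ℕ :=
  sSup {m : ℕ | ∃ A : Finset ((Fin n → ZMod 2) × (Fin n → ZMod 2)), CornerFree n A ∧ A.card = m}

/-- The power-saving bound of the problem. -/
def PowerSaving : Prop :=
  ∃ C c : ℝ, 0 < C ∧ 0 < c ∧ ∀ n : ℕ, 1 ≤ n →
    ∀ A : Finset ((Fin n → ZMod 2) × (Fin n → ZMod 2)), CornerFree n A →
      (A.card : ℝ) ≤ C * 4 ^ ((1 - c) * (n : ℝ))

lemma cfree_iff {n : ℕ} {A : Finset ((Fin n → ZMod 2) × (Fin n → ZMod 2))} :
    CFree A ↔ CornerFree n A := by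
  constructor
  · intro h x y z h1 h2 h3
    by_contra hz
    exact h x y z hz ⟨h1, h2, h3⟩
  · intro h x y z hz ⟨h1, h2, h3⟩
    exact hz (h x y z h1 h2 h3)

lemma card_le (n : ℕ) (A : Finset ((Fin n → ZMod 2) × (Fin n → ZMod 2))) : A.card ≤ 4 ^ n := by
  have := card_le_univ A
  rw [Fintype.card_prod, Fintype.card_fun, Fintype.card_fin, ZMod.card] at this
  calc A.card ≤ 2 ^ n * 2 ^ n := this
    _ = 4 ^ n := by rw [← mul_pow]; norm_num

lemma bdd (n : ℕ) : BddAbove {t | ∃ A : Finset ((Fin n → ZMod 2) × (Fin n → ZMod 2)),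
    CornerFree n A ∧ A.card = t} := by
  refine ⟨4 ^ n, ?_⟩
  rintro t ⟨A, _, rfl⟩
  exact card_le n A

lemma le_r {n t : ℕ} (h : HasC (Fin n → ZMod 2) t) : t ≤ r n := by
  obtain ⟨A, hA, ht⟩ := h
  exact le_csSup (bdd n) ⟨A, cfree_iff.1 hA, ht⟩

lemma exists_r (n : ℕ) : ∃ A : Finset ((Fin n → ZMod 2) × (Fin n → ZMod 2)),
    CornerFree n A ∧ A.card = r n :=
  Nat.sSup_mem (s := {t | ∃ A : Finset ((Fin n → ZMod 2) × (Fin n → ZMod 2)),
    CornerFree n A ∧ A.card = t})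
    ⟨0, ∅, fun _ _ _ h => by simp at h, rfl⟩ (bdd n)

lemma one_le_r (n : ℕ) : 1 ≤ r n := by
  apply le_r
  refine ⟨{(0, 0)}, ?_, card_singleton _⟩
  rintro x y z hz ⟨h1, h2, h3⟩
  rw [mem_singleton, Prod.mk.injEq] at h1 h2
  rw [h1.2, zero_add] at h2
  exact hz h2.2

/-- `F_2^m × F_2^n ≃ F_2^(m+n)` -/
noncomputable def appEquiv (m n : ℕ) :
    ((Fin m → ZMod 2) × (Fin n → ZMod 2)) ≃+ (Fin (m + n) → ZMod 2) :=
  { Fin.appendEquiv m n with
    map_add' := fun a b => by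
      funext i
      refine Fin.addCases (fun j => ?_) (fun j => ?_) i <;> simp [Fin.appendEquiv] }

lemma r_mul_le (m n : ℕ) : r m * r n ≤ r (m + n) := by
  classical
  obtain ⟨A, hA, hA'⟩ := exists_r m
  obtain ⟨B, hB, hB'⟩ := exists_r n
  apply le_r
  refine HasC.equiv (appEquiv m n)
    ⟨(A ×ˢ B).map (Equiv.prodProdProdComm _ _ _ _).toEmbedding, ?_,
      by rw [card_map, card_product, hA', hB']⟩
  have key : ∀ (x y : (Fin m → ZMod 2) × (Fin n → ZMod 2)),
      (x, y) ∈ (A ×ˢ B).map (Equiv.prodProdProdComm _ _ _ _).toEmbedding ↔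
        (x.1, y.1) ∈ A ∧ (x.2, y.2) ∈ B := by
    intro x y
    rw [mem_map_equiv, mem_product]
    rfl
  rintro x y z hz ⟨h1, h2, h3⟩
  rw [key] at h1 h2 h3
  apply hz
  have e1 := hA _ _ _ h1.1 h2.1 h3.1
  have e2 := hB _ _ _ h1.2 h2.2 h3.2
  exact Prod.ext e1 e2

lemma gap1 (n : ℕ) (hn : 1 ≤ n) (h : (2 ^ n) ^ 8 ≤ r n ^ 5) :
    2 * r n ^ ((2 ^ n) ^ 44) ≤ r ((2 ^ n) ^ 44 * n) := by
  obtain ⟨A, hA, hcard⟩ := exists_r n
  rw [← hcard] at h ⊢
  obtain ⟨t, ht, hle⟩ := improve A (cfree_iff.2 hA) hn h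
  exact hle.trans (le_r ht)

/-- `r n ≥ 2^{1.79 n}` for all large `n` -/
lemma lower : ∃ n0 : ℕ, ∀ n : ℕ, n0 ≤ n → (2 : ℝ) ^ ((1.79 : ℝ) * n) ≤ r n := by
  obtain ⟨n0, h⟩ := Pool.Agent.H523R2.Corner.Data4.main_cert
  refine ⟨n0, fun n hn => ?_⟩
  obtain ⟨A, hA, hc⟩ := h n hn
  have hA' : CFree A := fun x y z hz hc => hA x y z hz hc
  have h0 : (2 : ℝ) ^ ((1.79 : ℝ) * n) ≤ A.card := by
    have h1 : (2 : ℝ) ^ (3 * 179 * n) ≤ (A.card : ℝ) ^ 300 := by exact_mod_cast hc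
    have h2 : ((2 : ℝ) ^ ((1.79 : ℝ) * n)) ^ 300 = (2 : ℝ) ^ (3 * 179 * n) := by
      rw [← Real.rpow_natCast, ← Real.rpow_mul (by norm_num), ← Real.rpow_natCast]
      congr 1
      push_cast
      ring
    rw [← h2] at h1
    exact le_of_pow_le_pow_left₀ (by norm_num) (by positivity) h1
  exact h0.trans (by exact_mod_cast le_r ⟨A, hA', rfl⟩)

lemma pos_r (n : ℕ) : (0 : ℝ) < r n := by exact_mod_cast one_le_r n

theorem exists_L : ∃ L : ℝ, 0 < L ∧ Tendsto (fun n : ℕ => (r n : ℝ) ^ (1 / (n : ℝ))) atTop (𝓝 L) ∧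
    ∀ n : ℕ, 1 ≤ n → (r n : ℝ) ≤ L ^ n := by
  have hsub : Subadditive (fun n : ℕ => - Real.log (r n)) := by
    intro m n
    have h1 : (r m : ℝ) * r n ≤ r (m + n) := by
      exact_mod_cast r_mul_le m n
    have h2 := Real.log_le_log (mul_pos (pos_r m) (pos_r n)) h1
    rw [Real.log_mul (pos_r m).ne' (pos_r n).ne'] at h2
    linarith
  have hbdd : BddBelow (Set.range fun n : ℕ => (- Real.log (r n)) / n) := by
    refine ⟨- Real.log 4, ?_⟩
    rintro _ ⟨n, rfl⟩
    rcases Nat.eq_zero_or_pos n with rfl | hn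
    · simp only [Nat.cast_zero, div_zero]
      have := Real.log_nonneg (by norm_num : (1 : ℝ) ≤ 4)
      linarith
    · have hn' : (0 : ℝ) < n := by exact_mod_cast hn
      have h1 : (r n : ℝ) ≤ (4 : ℝ) ^ n := by
        have : r n ≤ 4 ^ n := by
          obtain ⟨A, _, hA⟩ := exists_r n
          rw [← hA]
          exact card_le n A
        exact_mod_cast this
      have h2 := Real.log_le_log (pos_r n) h1
      rw [Real.log_pow] at h2
      simp only
      rw [le_div_iff₀ hn']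
      linarith
  have hlim := hsub.tendsto_lim hbdd
  set ℓ := - hsub.lim with hℓ
  refine ⟨Real.exp ℓ, Real.exp_pos _, ?_, ?_⟩
  · have h1 := (Real.continuous_exp.tendsto ℓ).comp (hlim.neg)
    refine h1.congr fun n => ?_
    simp only [Function.comp]
    rw [Real.rpow_def_of_pos (pos_r n)]
    congr 1
    ring
  · intro n hn
    have h1 := hsub.lim_le_div hbdd (n := n) (by omega)
    have hn' : (0 : ℝ) < n := by exact_mod_cast hn
    rw [le_div_iff₀ hn'] at h1
    have h2 : Real.log (r n) ≤ n * ℓ := by rw [hℓ]; linarith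
    rw [← Real.exp_nat_mul, ← Real.exp_log (pos_r n)]
    exact Real.exp_le_exp.2 h2

lemma gap2 {L : ℝ} (hL0 : 0 < L)
    (hL : Tendsto (fun n : ℕ => (r n : ℝ) ^ (1 / (n : ℝ))) atTop (𝓝 L))
    (hle : ∀ n : ℕ, 1 ≤ n → (r n : ℝ) ≤ L ^ n) (n : ℕ) (hn : 1 ≤ n) :
    (r n : ℝ) * (1 + 1 / 2 ^ (44 * n + 1)) ≤ L ^ n := by
  by_cases h : (2 ^ n) ^ 8 ≤ r n ^ 5
  · have h1 := gap1 n hn h
    obtain ⟨N, hN⟩ : ∃ N, N = (2 ^ n) ^ 44 := ⟨_, rfl⟩
    rw [← hN] at h1
    have hN1 : 1 ≤ N := by rw [hN]; exact Nat.one_le_two_pow.trans (by rw [← pow_mul])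
    have hNr : (0 : ℝ) < N := by exact_mod_cast hN1
    have h2 : (2 : ℝ) * (r n : ℝ) ^ N ≤ (L ^ n) ^ N := by
      calc (2 : ℝ) * (r n : ℝ) ^ N ≤ (r (N * n) : ℝ) := by exact_mod_cast h1
        _ ≤ L ^ (N * n) := hle _ (Nat.mul_pos hN1 hn)
        _ = (L ^ n) ^ N := by rw [← pow_mul, mul_comm]
    have e : (2 : ℝ) ^ (44 * n + 1) = 2 * N := by
      rw [hN]
      push_cast
      rw [← pow_mul, pow_succ, mul_comm n 44]
      ring
    rw [e]
    refine le_of_pow_le_pow_left₀ (n := N) (by omega) (by positivity) ?_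
    rw [mul_pow]
    have h3 : (1 + 1 / (2 * (N : ℝ))) ^ N ≤ 2 := by
      have h4 : 1 + 1 / (2 * (N : ℝ)) ≤ Real.exp (1 / (2 * N)) := by
        have := Real.add_one_le_exp (1 / (2 * (N : ℝ)))
        linarith
      calc (1 + 1 / (2 * (N : ℝ))) ^ N ≤ (Real.exp (1 / (2 * N))) ^ N :=
            pow_le_pow_left₀ (by positivity) h4 N
        _ = Real.exp (1 / 2) := by
            rw [← Real.exp_nat_mul]
            congr 1
            field_simp
        _ ≤ 2 := by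
            have h5 : Real.exp (1 / 2) ^ 2 ≤ 2 ^ 2 := by
              rw [← Real.exp_nat_mul]
              have := Real.exp_one_lt_d9
              norm_num
              linarith
            exact le_of_pow_le_pow_left₀ (by norm_num) (by norm_num) h5
    calc (r n : ℝ) ^ N * (1 + 1 / (2 * (N : ℝ))) ^ N ≤ (r n : ℝ) ^ N * 2 :=
          mul_le_mul_of_nonneg_left h3 (by positivity)
      _ ≤ _ := by rw [mul_comm]; exact h2
  · push Not at h
    -- `L ≥ 2^{1.79}`
    have hL1 : (2 : ℝ) ^ (1.79 : ℝ) ≤ L := by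
      refine ge_of_tendsto hL ?_
      obtain ⟨n0, h0⟩ := lower
      filter_upwards [eventually_ge_atTop (max n0 1)] with m hm
      have hm0 := h0 m ((le_max_left _ _).trans hm)
      have hm1 : (0 : ℝ) < m := by exact_mod_cast (le_max_right n0 1).trans hm
      have h2 : (2 : ℝ) ^ (1.79 : ℝ) = ((2 : ℝ) ^ ((1.79 : ℝ) * m)) ^ (1 / (m : ℝ)) := by
        rw [← Real.rpow_mul (by norm_num)]
        congr 1
        field_simp
      rw [h2]
      exact Real.rpow_le_rpow (by positivity) hm0 (by positivity)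
    have hr : (r n : ℝ) ≤ ((2 : ℝ) ^ (1.6 : ℝ)) ^ n := by
      refine le_of_pow_le_pow_left₀ (n := 5) (by norm_num) (by positivity) ?_
      have e1 : (((2 : ℝ) ^ (1.6 : ℝ)) ^ n) ^ 5 = (2 ^ n) ^ 8 := by
        rw [← pow_mul, mul_comm n 5, pow_mul, ← Real.rpow_natCast ((2 : ℝ) ^ (1.6 : ℝ)) 5,
          ← Real.rpow_mul (by norm_num), ← pow_mul, mul_comm n 8, pow_mul,
          ← Real.rpow_natCast (2 : ℝ) 8]
        norm_num
      rw [e1]
      exact_mod_cast h.le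
    have h19 : (1.1 : ℝ) * (2 : ℝ) ^ (1.6 : ℝ) ≤ (2 : ℝ) ^ (1.79 : ℝ) := by
      have e1 : (2 : ℝ) ^ (1.79 : ℝ) = (2 : ℝ) ^ (0.19 : ℝ) * (2 : ℝ) ^ (1.6 : ℝ) := by
        rw [← Real.rpow_add (by norm_num)]
        norm_num
      rw [e1]
      apply mul_le_mul_of_nonneg_right _ (by positivity)
      refine le_of_pow_le_pow_left₀ (n := 100) (by norm_num) (by positivity) ?_
      have e2 : ((2 : ℝ) ^ (0.19 : ℝ)) ^ 100 = 2 ^ 19 := by
        rw [← Real.rpow_natCast, ← Real.rpow_mul (by norm_num), ← Real.rpow_natCast]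
        norm_num
      rw [e2]
      norm_num
    have hsmall : (1 + 1 / 2 ^ (44 * n + 1) : ℝ) ≤ 1.1 := by
      have h5 : (10 : ℝ) ≤ 2 ^ (44 * n + 1) := by
        calc (10 : ℝ) ≤ 2 ^ 45 := by norm_num
          _ ≤ 2 ^ (44 * n + 1) := pow_le_pow_right₀ (by norm_num) (by omega)
      have h6 : (1 : ℝ) / 2 ^ (44 * n + 1) ≤ 1 / 10 := one_div_le_one_div_of_le (by norm_num) h5
      linarith
    calc (r n : ℝ) * (1 + 1 / 2 ^ (44 * n + 1)) ≤ ((2 : ℝ) ^ (1.6 : ℝ)) ^ n * 1.1 :=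
          mul_le_mul hr hsmall (by positivity) (by positivity)
      _ ≤ ((2 : ℝ) ^ (1.6 : ℝ)) ^ n * 1.1 ^ n := by
          apply mul_le_mul_of_nonneg_left _ (by positivity)
          calc (1.1 : ℝ) = 1.1 ^ 1 := (pow_one _).symm
            _ ≤ 1.1 ^ n := pow_le_pow_right₀ (by norm_num) hn
      _ = ((1.1 : ℝ) * (2 : ℝ) ^ (1.6 : ℝ)) ^ n := by rw [mul_pow, mul_comm]
      _ ≤ ((2 : ℝ) ^ (1.79 : ℝ)) ^ n := pow_le_pow_left₀ (by positivity) h19 n
      _ ≤ L ^ n := pow_le_pow_left₀ (by positivity) hL1 n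

theorem powerSaving_iff {L : ℝ} (hL0 : 0 < L)
    (hL : Tendsto (fun n : ℕ => (r n : ℝ) ^ (1 / (n : ℝ))) atTop (𝓝 L))
    (hle : ∀ n : ℕ, 1 ≤ n → (r n : ℝ) ≤ L ^ n) : PowerSaving ↔ L < 4 := by
  constructor
  · rintro ⟨C, c, hC, hc, h⟩
    have h1 : L ≤ (4 : ℝ) ^ (1 - c) := by
      have ht : Tendsto (fun n : ℕ => C ^ (1 / (n : ℝ)) * (4 : ℝ) ^ (1 - c)) atTop
          (𝓝 ((4 : ℝ) ^ (1 - c))) := by
        have h0 : Tendsto (fun n : ℕ => C ^ (1 / (n : ℝ))) atTop (𝓝 1) := by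
          have := (tendsto_one_div_atTop_nhds_zero_nat (𝕜 := ℝ))
          have h2 := (Real.continuous_const_rpow hC.ne').tendsto 0 |>.comp this
          simpa [Function.comp_def] using h2
        simpa using h0.mul_const ((4 : ℝ) ^ (1 - c))
      refine le_of_tendsto_of_tendsto hL ht ?_
      filter_upwards [eventually_ge_atTop 1] with n hn
      obtain ⟨A, hA, hcard⟩ := exists_r n
      have h2 := h n hn A hA
      rw [hcard] at h2
      have hn' : (0 : ℝ) < n := by exact_mod_cast hn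
      calc (r n : ℝ) ^ (1 / (n : ℝ)) ≤ (C * 4 ^ ((1 - c) * (n : ℝ))) ^ (1 / (n : ℝ)) :=
            Real.rpow_le_rpow (by positivity) h2 (by positivity)
        _ = C ^ (1 / (n : ℝ)) * (4 : ℝ) ^ (1 - c) := by
            rw [Real.mul_rpow hC.le (by positivity), ← Real.rpow_mul (by norm_num)]
            congr 2
            field_simp
    refine h1.trans_lt ?_
    calc (4 : ℝ) ^ (1 - c) < 4 ^ (1 : ℝ) :=
          Real.rpow_lt_rpow_of_exponent_lt (by norm_num) (by linarith)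
      _ = 4 := Real.rpow_one 4
  · intro h
    have hlog : Real.log L < Real.log 4 := Real.log_lt_log hL0 h
    have h4 : 0 < Real.log 4 := Real.log_pos (by norm_num)
    refine ⟨1, 1 - Real.log L / Real.log 4, one_pos, ?_, ?_⟩
    · have : Real.log L / Real.log 4 < 1 := by rw [div_lt_one h4]; exact hlog
      linarith
    · intro n hn A hA
      have h1 : (A.card : ℝ) ≤ r n := by
        exact_mod_cast le_csSup (bdd n) ⟨A, hA, rfl⟩
      refine h1.trans ((hle n hn).trans ?_)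
      have e : (4 : ℝ) ^ ((1 - (1 - Real.log L / Real.log 4)) * (n : ℝ)) = L ^ n := by
        have e4 : (4 : ℝ) ^ (Real.log L / Real.log 4) = L := by
          rw [Real.rpow_def_of_pos (by norm_num : (0 : ℝ) < 4), mul_div_cancel₀ _ h4.ne',
            Real.exp_log hL0]
        rw [sub_sub_cancel, Real.rpow_mul (by norm_num), e4, Real.rpow_natCast]
      rw [e, one_mul]

/-- Let `r n` be the largest size of a corner-free subset of `(F_2^n)^2`.
(1) `L = lim (r n)^{1/n}` exists, the power-saving bound holds if and only if `L < 4`, and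
`r n (1 + 2^{-44 n - 1}) ≤ L^n` for all `n ≥ 1`: no corner-free set of any dimension has the optimal
exponent.
(2) For every `n ≥ 1` there is `N ≥ 1` with `(r n)^N < r (N n)`, that is, some corner-free set in
dimension `N n` beats all the `N`-fold products of corner-free sets of dimension `n`.
(3) Explicitly, if `(r n)^5 ≥ 2^{8 n}` and `N = 2^{44 n}` then `r (N n) ≥ 2 (r n)^N`. -/
theorem result :
    (∃ L : ℝ, Tendsto (fun n : ℕ => (r n : ℝ) ^ (1 / (n : ℝ))) atTop (𝓝 L) ∧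
      (PowerSaving ↔ L < 4) ∧
      ∀ n : ℕ, 1 ≤ n → (r n : ℝ) * (1 + 1 / 2 ^ (44 * n + 1)) ≤ L ^ n) ∧
    (∀ n : ℕ, 1 ≤ n → ∃ N : ℕ, 1 ≤ N ∧ r n ^ N < r (N * n)) ∧
    (∀ n : ℕ, 1 ≤ n → 2 ^ (8 * n) ≤ r n ^ 5 →
      2 * r n ^ (2 ^ (44 * n)) ≤ r (2 ^ (44 * n) * n)) := by
  obtain ⟨L, hL0, hL, hle⟩ := exists_L
  refine ⟨⟨L, hL, powerSaving_iff hL0 hL hle, fun n hn => gap2 hL0 hL hle n hn⟩, ?_, ?_⟩
  · intro n hn
    by_contra hcon
    push Not at hcon
    have hn' : (0 : ℝ) < n := by exact_mod_cast hn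
    have h1 : L ≤ (r n : ℝ) ^ (1 / (n : ℝ)) := by
      have hsubseq : Tendsto (fun N : ℕ => N * n) atTop atTop :=
        tendsto_id.atTop_mul_const' hn
      refine le_of_tendsto (hL.comp hsubseq) ?_
      filter_upwards [eventually_ge_atTop 1] with N hN
      have hN' : (0 : ℝ) < N := by exact_mod_cast hN
      have h2 : (r (N * n) : ℝ) ≤ (r n : ℝ) ^ N := by exact_mod_cast hcon N hN
      calc ((r (N * n) : ℝ)) ^ (1 / ((N * n : ℕ) : ℝ))
          ≤ ((r n : ℝ) ^ N) ^ (1 / ((N * n : ℕ) : ℝ)) :=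
            Real.rpow_le_rpow (by positivity) h2 (by positivity)
        _ = (r n : ℝ) ^ (1 / (n : ℝ)) := by
            rw [← Real.rpow_natCast, ← Real.rpow_mul (by positivity)]
            congr 1
            push_cast
            field_simp
    have h3 : L ^ n ≤ r n := by
      calc L ^ n ≤ ((r n : ℝ) ^ (1 / (n : ℝ))) ^ n := pow_le_pow_left₀ hL0.le h1 n
        _ = r n := by
            rw [← Real.rpow_natCast, ← Real.rpow_mul (by positivity)]
            rw [one_div, inv_mul_cancel₀ hn'.ne', Real.rpow_one]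
    have h4 := gap2 hL0 hL hle n hn
    have h5 : (r n : ℝ) < (r n : ℝ) * (1 + 1 / 2 ^ (44 * n + 1)) := by
      have : (0 : ℝ) < (r n : ℝ) * (1 / 2 ^ (44 * n + 1)) := mul_pos (pos_r n) (by positivity)
      linarith
    linarith
  · intro n hn h
    have e : (2 ^ n) ^ 44 = 2 ^ (44 * n) := by rw [← pow_mul, mul_comm]
    have := gap1 n hn (by rw [← pow_mul, mul_comm]; exact h)
    rwa [e] at this

end Pool.Agent.Results.MP_db4732_co.NotAttained
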