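import Pool.Agent.Q247.BW.LineFree

set_option autoImplicit false

/-!
# Corner-free sets inside of sets decided by machines with few states

Let `G` be a nontrivial finite abelian group (for instance `F_2`).  *Every* corner-free subset of
`(G^n)^2` has small relative density in *every* set `F ⊆ (G^n)^2` which is decided by a
nondeterministic machine with a bounded number of states (or is the union of `T` such sets) and has at
least `|G|^(2n) 2^(-cn)` elements.  The machine reads the pairs `(x i, y i)` once, in an arbitrary
order.  The same for unions of few product sets.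

So a set without corners cannot correlate with such sets `F`, even if they are exponentially small;
the corner-free set `A` is arbitrary, only `F` is decided by machines.
-/

namespace Pool.Agent.Results.MP_db4732_co.RelativeMachines

open Finset Function Pool.Agent.Q247.BW

/-- `A ⊆ H × H` contains no nontrivial corner `(x, y), (x, y + z), (x + z, y)`, `z ≠ 0`. -/
def CornerFree {H : Type} [AddCommGroup H] (A : Finset (H × H)) : Prop :=
  ∀ x y z : H, (x, y) ∈ A → (x, y + z) ∈ A → (x + z, y) ∈ A → z = 0

/-- `B` is decided by a nondeterministic machine with at most `w` states that reads the `n` pairs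
`(x i, y i)` once, in the given order. -/
def Decided (w : ℕ) {G : Type} {n : ℕ} (order : Fin n ≃ Fin n)
    (B : Finset ((Fin n → G) × (Fin n → G))) : Prop :=
  ∃ (Q : Type) (_ : Fintype Q) (M : Machine Q (G × G)), Fintype.card Q ≤ w ∧
    ∀ p, p ∈ B ↔ M.Accepts order fun i => (p.1 i, p.2 i)

/-- `P` is a product set with respect to the sets `J j` of indices and the set of the remaining
indices: the pairs of coordinates with indices in `J j` of a point of `P` may be replaced by those of
another point of `P`. -/
def IsProduct {G : Type} {k n : ℕ} (J : Fin k → Finset (Fin n))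
    (P : Finset ((Fin n → G) × (Fin n → G))) : Prop :=
  ∀ j, ∀ p ∈ P, ∀ q ∈ P, ((fun i => if i ∈ J j then q.1 i else p.1 i),
    (fun i => if i ∈ J j then q.2 i else p.2 i)) ∈ P

/-- a set of pairs of words as a set of words of pairs -/
def words {G : Type} [DecidableEq G] {n : ℕ} (A : Finset ((Fin n → G) × (Fin n → G))) :
    Finset (Fin n → G × G) := A.image fun p i => (p.1 i, p.2 i)

theorem words_inj {G : Type} {n : ℕ} :
    Injective fun (p : (Fin n → G) × (Fin n → G)) (i : Fin n) => (p.1 i, p.2 i) := by
  rintro ⟨x, y⟩ ⟨x', y'⟩ h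
  have h1 : ∀ i, (x i, y i) = (x' i, y' i) := fun i => congrFun h i
  simp only [Prod.mk.injEq] at h1 ⊢
  exact ⟨funext fun i => (h1 i).1, funext fun i => (h1 i).2⟩

theorem mem_words {G : Type} [DecidableEq G] {n : ℕ} {A : Finset ((Fin n → G) × (Fin n → G))}
    {v : Fin n → G × G} : v ∈ words A ↔ ((fun i => (v i).1), fun i => (v i).2) ∈ A := by
  unfold words
  rw [mem_image]
  constructor
  · rintro ⟨p, hp, rfl⟩
    exact hp
  · intro h
    exact ⟨_, h, rfl⟩

theorem card_words {G : Type} [DecidableEq G] {n : ℕ} (A : Finset ((Fin n → G) × (Fin n → G))) :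
    (words A).card = A.card := card_image_of_injective _ words_inj

theorem words_inter {G : Type} [DecidableEq G] {n : ℕ}
    (A B : Finset ((Fin n → G) × (Fin n → G))) : words (A ∩ B) = words A ∩ words B := by
  ext v
  simp only [mem_inter, mem_words]

theorem lineFree_words {G : Type} [AddCommGroup G] [DecidableEq G] [Nontrivial G] {n : ℕ}
    {A : Finset ((Fin n → G) × (Fin n → G))} (hA : CornerFree A) : LineFree (words A) := by
  rintro V ⟨i, hi⟩
  by_contra hcon
  push Not at hcon
  obtain ⟨g, hg⟩ := exists_ne (0 : G)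
  have h1 := hA (fun l => (Sum.elim id (fun _ => (0 : G × G)) (V l)).1)
    (fun l => (Sum.elim id (fun _ => (0 : G × G)) (V l)).2)
    (fun l => Sum.elim (fun _ => 0) (fun _ => g) (V l)) ?_ ?_ ?_
  · have h2 := congrFun h1 i
    simp only [hi, Sum.elim_inr, Pi.zero_apply] at h2
    exact hg h2
  · exact mem_words.1 (hcon (0, 0))
  · have h2 := mem_words.1 (hcon (0, g))
    convert h2 using 2
    · funext l
      rcases V l with b | b <;> simp
    · funext l
      rw [Pi.add_apply]
      rcases V l with b | b <;> simp
  · have h2 := mem_words.1 (hcon (g, 0))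
    convert h2 using 2
    · funext l
      rw [Pi.add_apply]
      rcases V l with b | b <;> simp
    · funext l
      rcases V l with b | b <;> simp

/-- **Theorem.** Let `G` be a nontrivial finite abelian group.
(1) For `w ≥ 1` and `δ > 0` there is `m ≥ 1` such that for all `n`, `T`, all corner-free
`A ⊆ (G^n)^2` and all unions `F` of `T` sets decided by nondeterministic machines with at most `w`
states that read the pairs `(x i, y i)` once, in a common arbitrary order,
`|A ∩ F| ≤ δ |F| + T w |G|^(2n) 2^(-⌊n / m⌋)`.
(2) For every `δ ∈ (0, 1]` there is `m ≥ 1` such that for all disjoint sets `J_1, …, J_r` of at least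
`m` indices, all unions `F` of `T` product sets with respect to them and all corner-free
`A ⊆ (G^n)^2`, `|A ∩ F| ≤ δ |F| + T δ^r |G|^(2n)`. -/
theorem result (G : Type) [AddCommGroup G] [Fintype G] [Nontrivial G] [DecidableEq G] :
    (∀ w : ℕ, 1 ≤ w → ∀ δ : ℝ, 0 < δ → ∃ m : ℕ, 1 ≤ m ∧
      ∀ (n T : ℕ) (order : Fin n ≃ Fin n) (A F : Finset ((Fin n → G) × (Fin n → G)))
        (B : Fin T → Finset ((Fin n → G) × (Fin n → G))), CornerFree A →
        (∀ s, Decided w order (B s)) → (∀ x, x ∈ F ↔ ∃ s, x ∈ B s) →
        ((A ∩ F).card : ℝ) ≤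
          δ * F.card + T * w * (Fintype.card G : ℝ) ^ (2 * n) * (1 / 2 : ℝ) ^ (n / m)) ∧
    (∀ δ : ℝ, 0 < δ → δ ≤ 1 → ∃ m : ℕ, 1 ≤ m ∧
      ∀ (n r T : ℕ) (J : Fin r → Finset (Fin n)),
        (∀ j j', j ≠ j' → Disjoint (J j) (J j')) → (∀ j, m ≤ (J j).card) →
        ∀ (A F : Finset ((Fin n → G) × (Fin n → G)))
          (P : Fin T → Finset ((Fin n → G) × (Fin n → G))), CornerFree A →
        (∀ s, IsProduct J (P s)) → (∀ x, x ∈ F ↔ ∃ s, x ∈ P s) →
        ((A ∩ F).card : ℝ) ≤ δ * F.card + T * δ ^ r * (Fintype.card G : ℝ) ^ (2 * n)) := by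
  classical
  have hcard : ∀ n : ℕ, (Fintype.card (G × G) : ℝ) ^ n = (Fintype.card G : ℝ) ^ (2 * n) := by
    intro n
    rw [Fintype.card_prod, pow_mul]
    push_cast
    rw [sq]
  refine ⟨fun w hw δ hδ => ?_, fun δ hδ hδ1 => ?_⟩
  · obtain ⟨m, hm, h⟩ := lineFree_machine (G × G) w hw δ hδ
    refine ⟨m, hm, fun n T order A F B hA hB hF => ?_⟩
    have h2 := h n T order (words A) (words F) (fun s => words (B s))
      (fun v => by simp only [mem_words, hF]) (fun s => ?_) (lineFree_words hA)
    · rwa [← words_inter, card_words, card_words, hcard] at h2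
    · obtain ⟨Q, hQ, M, hQw, hM⟩ := hB s
      exact ⟨Q, hQ, M, hQw, fun v => by rw [mem_words, hM]⟩
  · obtain ⟨m, hm, h⟩ := lineFree_box (G × G) δ hδ hδ1
    refine ⟨m, hm, fun n r T J hJ hJm A F P hA hP hF => ?_⟩
    have h2 := h n r J hJ hJm (words A) (words F) (fun s => words (P s)) (fun s j => ?_)
      (fun v => by simp only [mem_words, hF]) (lineFree_words hA)
    · rw [← words_inter, card_words, card_words, hcard, Fintype.card_fin] at h2
      refine h2.trans (le_of_eq ?_)
      ring
    · intro v hv v' hv'
      rw [mem_words] at hv hv' ⊢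
      convert hP s j _ hv _ hv' using 2
      · funext i
        split_ifs <;> rfl
      · funext i
        split_ifs <;> rfl

end Pool.Agent.Results.MP_db4732_co.RelativeMachines
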