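import Pool.Agent.Q274.TWD.Card

/-!
# Corner-free sets of small twin-width
-/

set_option autoImplicit false

namespace Pool.Agent.Results.MP_db4732_co.SmallTwinWidth

open Finset Pool.Agent.Q274.TWD Pool.Agent.Y422.TW

/-- `A ⊆ G × G` contains no corner `(x, y), (x, y + z), (x + z, y)` with `z ≠ 0`. -/
def CornerFree {G : Type} [AddCommGroup G] (A : Finset (G × G)) : Prop :=
  ∀ x y z : G, (x, y) ∈ A → (x, y + z) ∈ A → (x + z, y) ∈ A → z = 0

/-- The relation `F` is given by adjacency in a finite graph of twin-width at most `w`: for some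
maps `f`, `g` into the vertices `F x y` holds if and only if `f x` and `g y` are adjacent. (For
instance the vertices are the rows and the columns of `F` and the graph is the bipartite graph
of `F`.) -/
def HasTwinWidth {X Y : Type} (F : X → Y → Prop) (w : ℕ) : Prop :=
  ∃ (V : Type) (_ : Fintype V) (H : SimpleGraph V) (f : X → V) (g : Y → V),
    TwinWidthLE H w ∧ ∀ x y, F x y ↔ H.Adj (f x) (g y)

/-- the rows, the columns or the antidiagonals of `A` as a matrix of twin-width at most `w` -/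
def SetTwinWidth {G : Type} [AddCommGroup G] (A : Finset (G × G)) (w : ℕ) : Prop :=
  HasTwinWidth (fun x y : G => (x, y) ∈ A) w ∨ HasTwinWidth (fun x s : G => (x, s - x) ∈ A) w ∨
    HasTwinWidth (fun s y : G => (s - y, y) ∈ A) w

theorem main {G : Type} [AddCommGroup G] [Fintype G] (A : Finset (G × G)) (hA : CornerFree A)
    (w : ℕ) (h : SetTwinWidth A w) : A.card ^ 3 ≤ 512 * (w + 1) * Fintype.card G ^ 5 := by
  classical
  have fin : ∀ F : G → G → Prop, num F = A.card →
      (∀ P R : Finset G, (∀ x ∈ P, ∀ y ∈ R, F x y) → P.card * R.card ≤ Fintype.card G) →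
      HasTwinWidth F w → A.card ^ 3 ≤ 512 * (w + 1) * Fintype.card G ^ 5 := by
    rintro F hn hPR ⟨V, _, H, f, g, hw, hF⟩
    obtain ⟨P, R, h1, h2⟩ := dense_rect' H w hw f g F hF
    rw [hn] at h2
    refine h2.trans ?_
    calc 512 * (w + 1) * (Fintype.card G * Fintype.card G) ^ 2 * (P.card * R.card)
        ≤ 512 * (w + 1) * (Fintype.card G * Fintype.card G) ^ 2 * Fintype.card G :=
          Nat.mul_le_mul_left _ (hPR P R h1)
      _ = _ := by ring
  have inj : ∀ (P R : Finset G) (u : G × G → G),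
      (∀ p ∈ P ×ˢ R, ∀ q ∈ P ×ˢ R, u p = u q → p = q) → P.card * R.card ≤ Fintype.card G := by
    intro P R u hu
    rw [← card_product, ← card_univ]
    exact Finset.card_le_card_of_injOn u (fun _ _ => mem_univ _)
      (fun p hp q hq => hu p hp q hq)
  rcases h with h | h | h
  · refine fin _ (num_eq_card _ A (Equiv.refl _) fun x y => Iff.rfl) ?_ h
    intro P R hPR
    refine inj P R (fun p => p.1 - p.2) ?_
    rintro ⟨x, y⟩ hp ⟨x', y'⟩ hq huq
    obtain ⟨hx, hy⟩ := mem_product.1 hp
    obtain ⟨hx', hy'⟩ := mem_product.1 hq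
    simp only at hx hy hx' hy' huq
    have e1 : y + (x' - x) = y' := by
      have : x' = x - y + y' := by rw [huq]; abel
      rw [this]; abel
    have e2 : x + (x' - x) = x' := by abel
    have hz := hA x y (x' - x) (hPR x hx y hy) (by rw [e1]; exact hPR x hx y' hy')
      (by rw [e2]; exact hPR x' hx' y hy)
    rw [hz, add_zero] at e1 e2
    rw [e1, e2]
  · refine fin _ (num_eq_card _ A
      { toFun := fun p => (p.1, p.2 - p.1)
        invFun := fun p => (p.1, p.1 + p.2)
        left_inv := fun p => by simp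
        right_inv := fun p => by simp } fun x y => Iff.rfl) ?_ h
    intro P R hPR
    refine inj P R (fun p => p.2 - p.1) ?_
    rintro ⟨x, s⟩ hp ⟨x', s'⟩ hq huq
    obtain ⟨hx, hs⟩ := mem_product.1 hp
    obtain ⟨hx', hs'⟩ := mem_product.1 hq
    simp only at hx hs hx' hs' huq
    have e1 : s - x + (x' - x) = s' - x := by
      rw [huq]; abel
    have e2 : x + (x' - x) = x' := by abel
    have hz := hA x (s - x) (x' - x) (hPR x hx s hs) (by rw [e1]; exact hPR x hx s' hs')
      (by rw [e2, huq]; exact hPR x' hx' s' hs')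
    rw [hz, add_zero] at e1 e2
    rw [e2, sub_left_inj.1 e1]
  · refine fin _ (num_eq_card _ A
      { toFun := fun p => (p.1 - p.2, p.2)
        invFun := fun p => (p.1 + p.2, p.2)
        left_inv := fun p => by simp
        right_inv := fun p => by simp } fun x y => Iff.rfl) ?_ h
    intro P R hPR
    refine inj P R (fun p => p.1 - p.2) ?_
    rintro ⟨s, y⟩ hp ⟨s', y'⟩ hq huq
    obtain ⟨hs, hy⟩ := mem_product.1 hp
    obtain ⟨hs', hy'⟩ := mem_product.1 hq
    simp only at hs hy hs' hy' huq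
    have e0 : s' = s - y + y' := by rw [huq]; abel
    have e1 : y + (s' - s) = y' := by rw [e0]; abel
    have e2 : s - y + (s' - s) = s' - y := by abel
    have hz := hA (s - y) y (s' - s) (hPR s hs y hy)
      (by rw [e1, huq]; exact hPR s' hs' y' hy') (by rw [e2]; exact hPR s' hs' y hy)
    have e3 : s' = s := sub_eq_zero.1 hz
    rw [hz, add_zero] at e1
    rw [e1, e3]

/-- **Power-saving bounds for corner-free sets of small twin-width.**
(1) In every finite abelian group `G`: a corner-free set `A ⊆ G × G` whose matrix (in the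
coordinates `(x, y)`, `(x, x + y)` or `(x + y, y)`) has twin-width at most `w` satisfies
`|A|³ ≤ 512 (w + 1) |G|⁵`.
(2) For `0 ≤ c`: if `G = F₂ⁿ` and `w + 1 ≤ 2^{(1 - c) n}` then `|A| ≤ 8 · 4^{(1 - c/6) n}`. -/
theorem result :
    (∀ (G : Type) [AddCommGroup G] [Fintype G] (A : Finset (G × G)), CornerFree A →
      ∀ w : ℕ, SetTwinWidth A w → A.card ^ 3 ≤ 512 * (w + 1) * Fintype.card G ^ 5) ∧
    (∀ (c : ℝ) (n : ℕ) (A : Finset ((Fin n → ZMod 2) × (Fin n → ZMod 2))), CornerFree A →
      ∀ w : ℕ, (w : ℝ) + 1 ≤ 2 ^ ((1 - c) * n) → SetTwinWidth A w →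
        (A.card : ℝ) ≤ 8 * 4 ^ ((1 - c / 6) * n)) := by
  refine ⟨fun G _ _ A hA w h => main A hA w h, ?_⟩
  intro c n A hA w hw h
  have h1 := main A hA w h
  have h2 : (A.card : ℝ) ^ 3 ≤ 512 * ((w : ℝ) + 1) * (Fintype.card (Fin n → ZMod 2) : ℝ) ^ 5 := by
    exact_mod_cast h1
  have hcard : (Fintype.card (Fin n → ZMod 2) : ℝ) = (2 : ℝ) ^ (n : ℝ) := by
    rw [Fintype.card_fun, ZMod.card, Fintype.card_fin, Real.rpow_natCast]
    push_cast
    rfl
  have h3 : (A.card : ℝ) ^ 3 ≤ (8 * 4 ^ ((1 - c / 6) * (n : ℝ)) : ℝ) ^ 3 := by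
    refine h2.trans ?_
    calc 512 * ((w : ℝ) + 1) * (Fintype.card (Fin n → ZMod 2) : ℝ) ^ 5
        ≤ 512 * 2 ^ ((1 - c) * n) * (Fintype.card (Fin n → ZMod 2) : ℝ) ^ 5 := by gcongr
      _ = (8 * 4 ^ ((1 - c / 6) * (n : ℝ)) : ℝ) ^ 3 := by
        have e4 : (4 : ℝ) = (2 : ℝ) ^ (2 : ℝ) := by norm_num
        rw [hcard, mul_pow, e4, ← Real.rpow_mul (by norm_num), ← Real.rpow_natCast _ 5,
          ← Real.rpow_natCast (_ ^ _) 3, ← Real.rpow_mul (by norm_num),
          ← Real.rpow_mul (by norm_num), mul_assoc, ← Real.rpow_add (by norm_num)]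
        norm_num
        congr 1
        ring
  exact le_of_pow_le_pow_left₀ (by norm_num) (by positivity) h3

end Pool.Agent.Results.MP_db4732_co.SmallTwinWidth
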